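import Pool.Agent.Helper10.RC.Basic

/-!
# MP_b55b7c_an, packet QMono: monotonicity of rank functions under Cuntz subequivalence
-/

open scoped ENNReal NNReal InnerProductSpace ComplexOrder
open Filter Topology

attribute [-instance] CStarMatrix.instAlgebra CStarMatrix.instModule CStarMatrix.instSMul
  CStarMatrix.instMulAction CStarMatrix.instDistribMulAction

set_option linter.unusedSectionVars false

noncomputable section
namespace RC
universe u

section QMonoAux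
variable {D : Type u} [CStarAlgebra D] [PartialOrder D] [StarOrderedRing D]

theorem qm_le_add {a x : D} (ha : IsSelfAdjoint a) (hx : IsSelfAdjoint x) {ε : ℝ}
    (h : ‖x - a‖ ≤ ε) : a - ε • (1 : D) ≤ x := by
  have h1 : a - x ≤ algebraMap ℝ D ‖a - x‖ := (ha.sub hx).le_algebraMap_norm_self
  have h2 : algebraMap ℝ D ‖a - x‖ ≤ algebraMap ℝ D ε := by
    rw [norm_sub_rev] at h
    exact algebraMap_mono D h
  have h3 := h1.trans h2
  rw [Algebra.algebraMap_eq_smul_one] at h3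
  have h4 := sub_nonneg.2 h3
  refine sub_nonneg.1 ?_
  have h5 : x - (a - ε • (1 : D)) = ε • (1 : D) - (a - x) := by abel
  rw [h5]; exact h4

theorem qm_g {a : D} (ha : IsSelfAdjoint a) {ε : ℝ} (hε : 0 < ε) :
    cfc (fun t : ℝ => Real.sqrt (max (t - 2 * ε) 0 / max (t - ε) ε)) a * (a - ε • (1 : D)) *
      cfc (fun t : ℝ => Real.sqrt (max (t - 2 * ε) 0 / max (t - ε) ε)) a = cut a (2 * ε) := by
  have hc : Continuous fun t : ℝ => Real.sqrt (max (t - 2 * ε) 0 / max (t - ε) ε) := by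
    refine Real.continuous_sqrt.comp (Continuous.div (by fun_prop) (by fun_prop) ?_)
    intro t
    exact (lt_of_lt_of_le hε (le_max_right _ _)).ne'
  have h1 : a - ε • (1 : D) = cfc (fun t : ℝ => t - ε) a := by
    rw [cfc_sub (fun t : ℝ => t) (fun _ : ℝ => ε) a, cfc_id' ℝ a, cfc_const ε a,
      Algebra.algebraMap_eq_smul_one]
  rw [h1, ← cfc_mul _ _ a hc.continuousOn (by fun_prop),
    ← cfc_mul (fun t : ℝ => Real.sqrt (max (t - 2 * ε) 0 / max (t - ε) ε) * (t - ε)) _ a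
      ((hc.mul (by fun_prop)).continuousOn) hc.continuousOn, cut]
  refine cfc_congr fun t _ => ?_
  have h2 : Real.sqrt (max (t - 2 * ε) 0 / max (t - ε) ε) *
      Real.sqrt (max (t - 2 * ε) 0 / max (t - ε) ε) = max (t - 2 * ε) 0 / max (t - ε) ε :=
    Real.mul_self_sqrt (div_nonneg (le_max_right _ _) (hε.le.trans (le_max_right _ _)))
  have h3 : Real.sqrt (max (t - 2 * ε) 0 / max (t - ε) ε) * (t - ε) *
      Real.sqrt (max (t - 2 * ε) 0 / max (t - ε) ε) = max (t - 2 * ε) 0 / max (t - ε) ε *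
      (t - ε) := by
    conv_rhs => rw [← h2]
    ring
  show Real.sqrt (max (t - 2 * ε) 0 / max (t - ε) ε) * (t - ε) *
      Real.sqrt (max (t - 2 * ε) 0 / max (t - ε) ε) = max (t - 2 * ε) 0
  rw [h3]
  rcases le_total (t - 2 * ε) 0 with h | h
  · rw [max_eq_right h]; simp
  · rw [max_eq_left h, max_eq_left (by linarith : ε ≤ t - ε)]
    have : t - ε ≠ 0 := by linarith
    field_simp

end QMonoAux

variable {A : Type u} [CStarAlgebra A] [PartialOrder A] [StarOrderedRing A]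

theorem qm_main (h1 : PedP.{u}) (h2 : QSwapP.{u}) (h3 : QBasicP.{u}) (σ : QTrace A)
    (ι κ : Type) [Fintype ι] [DecidableEq ι] [Fintype κ] [DecidableEq κ]
    (a : CStarMatrix ι ι A) (b : CStarMatrix κ κ A) (ha : 0 ≤ a) (hb : 0 ≤ b) (hab : Cu a b)
    (n : ℕ) (hn : 1 ≤ n) (δ : ℝ) (hδ : 0 < δ) :
    σ.τ ι (cfc (fun t : ℝ => max (min 1 ((n : ℝ) * t) - δ) 0) a) ≤ σ.dim b := by
  have hn0 : (0 : ℝ) < n := by exact_mod_cast hn
  have hδn : 0 < δ / n := by positivity
  obtain ⟨ε, hε, hε4⟩ : ∃ ε : ℝ, 0 < ε ∧ 4 * ε ≤ δ / n := ⟨δ / n / 4, by positivity, by linarith⟩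
  obtain ⟨v, hv⟩ := hab (ε / 2) (by positivity)
  obtain ⟨η, hη, hηv⟩ : ∃ η : ℝ, 0 < η ∧ ‖v‖ ^ 2 * η < ε / 2 := by
    refine ⟨ε / 2 / (‖v‖ ^ 2 + 1), by positivity, ?_⟩
    rw [mul_div_assoc', div_lt_iff₀ (by positivity)]
    nlinarith
  have haS : IsSelfAdjoint a := ha.isSelfAdjoint
  have hbS : IsSelfAdjoint b := hb.isSelfAdjoint
  set s : CStarMatrix κ κ A := cfc (fun t : ℝ => Real.sqrt (max (t - η) 0)) b with hs
  have hsc : Continuous fun t : ℝ => Real.sqrt (max (t - η) 0) := by fun_prop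
  have hss : s * s = cut b η := by
    rw [hs, ← cfc_mul _ _ b hsc.continuousOn hsc.continuousOn, cut]
    refine cfc_congr fun t _ => ?_
    exact Real.mul_self_sqrt (le_max_right _ _)
  have hsS : star s = s := by
    have : IsSelfAdjoint s := cfc_predicate _ b
    exact this
  set x : CStarMatrix ι ι A := v * cut b η * v.conjTranspose with hx
  have hx0 : 0 ≤ x := cm_conj_nonneg v (cut_nonneg b η)
  have hxa : ‖x - a‖ ≤ ε := by
    have e1 : x - a = -(v * (b - cut b η) * v.conjTranspose) +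
        (v * b * v.conjTranspose - a) := by
      rw [cm_mul_sub, cm_sub_mul, hx]; abel
    rw [e1]
    refine (norm_add_le _ _).trans ?_
    rw [norm_neg]
    have e2 := cm_norm_conj_le v (b - cut b η)
    have e3 := norm_sub_cut_le hb hη.le
    have e4 : ‖v‖ ^ 2 * ‖b - cut b η‖ ≤ ‖v‖ ^ 2 * η := by gcongr
    linarith
  have hax : a - ε • (1 : CStarMatrix ι ι A) ≤ x := qm_le_add haS hx0.isSelfAdjoint hxa
  set g : CStarMatrix ι ι A :=
    cfc (fun t : ℝ => Real.sqrt (max (t - 2 * ε) 0 / max (t - ε) ε)) a with hg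
  have hgS : star g = g := by
    have : IsSelfAdjoint g := cfc_predicate _ a
    exact this
  have hgP : g * (a - ε • (1 : CStarMatrix ι ι A)) * g = cut a (2 * ε) := qm_g haS hε
  set z : CStarMatrix κ ι A := s * v.conjTranspose * g with hz
  have hzc : z.conjTranspose = g * (v * s) := by
    rw [hz, cm_conj_mul, cm_conj_mul, cm_conj_conj, cm_star_eq, cm_star_eq, hgS, hsS]
  have hzz : z.conjTranspose * z = g * x * g := by
    rw [hzc, hz, hx, ← hss]
    simp only [cm_assoc]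
  have hP : cut a (2 * ε) ≤ z.conjTranspose * z := by
    rw [hzz, ← hgP]
    have := cm_conj_le g hax
    rw [cm_star_eq, hgS] at this
    exact this
  obtain ⟨L, hL, hLf⟩ := h1 A ι κ (cut a (2 * ε)) z (cut_nonneg _ _) hP
  obtain ⟨m, hm⟩ := exists_nat_ge (1 / η)
  have hmη : 1 ≤ (m : ℝ) * η := by
    rw [div_le_iff₀ hη] at hm; exact hm
  set f : CStarMatrix κ κ A := cfc (fun t : ℝ => min 1 ((m : ℝ) * t)) b with hf
  have hfc : Continuous fun t : ℝ => min 1 ((m : ℝ) * t) := by fun_prop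
  have hfS : star f = f := by
    have : IsSelfAdjoint f := cfc_predicate _ b
    exact this
  have hf0 : 0 ≤ f := cfc_nonneg fun t ht =>
    le_min zero_le_one (mul_nonneg (Nat.cast_nonneg _) (spectrum_nonneg_of_nonneg hb ht))
  have hsf : s * f = s := by
    rw [hs, hf, ← cfc_mul _ _ b hsc.continuousOn hfc.continuousOn]
    refine cfc_congr fun t _ => ?_
    show Real.sqrt (max (t - η) 0) * min 1 ((m : ℝ) * t) = Real.sqrt (max (t - η) 0)
    rcases le_total (t - η) 0 with h | h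
    · rw [max_eq_right h]; simp
    · have : (1 : ℝ) ≤ m * t := by
        have : (m : ℝ) * η ≤ m * t := mul_le_mul_of_nonneg_left (by linarith) (Nat.cast_nonneg _)
        linarith
      rw [min_eq_left this, mul_one]
  have hzf : z.conjTranspose * f = z.conjTranspose := by
    rw [hzc, cm_assoc, cm_assoc, hsf]
  have hLf' := hLf f hzf
  set h : CStarMatrix κ κ A := L.conjTranspose * L with hh
  have hh0 : 0 ≤ h := cm_conj_mul_nonneg L
  have hhf : h * f = h := by rw [hh, cm_assoc, hLf']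
  -- the function G₂
  obtain ⟨G₂, hG₂⟩ : ∃ G₂ : ℝ → ℝ, G₂ = fun s : ℝ =>
    max (min 1 ((n : ℝ) * (max s 0 + 2 * ε)) - δ) 0 := ⟨_, rfl⟩
  have hG₂c : Continuous G₂ := by rw [hG₂]; fun_prop
  have hG₂0 : ∀ t, 0 ≤ G₂ t := fun t => by rw [hG₂]; exact le_max_right _ _
  have hG₂1 : ∀ t, G₂ t ≤ 1 := fun t => by
    rw [hG₂]
    refine max_le ?_ zero_le_one
    have : min 1 ((n : ℝ) * (max t 0 + 2 * ε)) ≤ 1 := min_le_left _ _
    linarith
  have hδ' : 0 < δ / n - 2 * ε := by linarith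
  have hG₂v : ∀ t ≤ δ / n - 2 * ε, G₂ t = 0 := fun t ht => by
    rw [hG₂]
    refine max_eq_right ?_
    have e1 : min 1 ((n : ℝ) * (max t 0 + 2 * ε)) ≤ (n : ℝ) * (max t 0 + 2 * ε) := min_le_right _ _
    have e2 : max t 0 + 2 * ε ≤ δ / n := by
      have : max t 0 ≤ δ / n - 2 * ε := max_le ht hδ'.le
      linarith
    have e3 : (n : ℝ) * (max t 0 + 2 * ε) ≤ n * (δ / n) := by gcongr
    rw [mul_div_cancel₀ _ hn0.ne'] at e3
    linarith
  have hGa : cfc (fun t : ℝ => max (min 1 ((n : ℝ) * t) - δ) 0) a = cfc G₂ (cut a (2 * ε)) := by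
    rw [cut, ← cfc_comp' G₂ (fun t : ℝ => max (t - 2 * ε) 0) a hG₂c.continuousOn]
    refine cfc_congr fun t _ => ?_
    show max (min 1 ((n : ℝ) * t) - δ) 0 = G₂ (max (t - 2 * ε) 0)
    rcases le_total (t - 2 * ε) 0 with h | h
    · rw [max_eq_right h, hG₂v 0 (by linarith)]
      refine max_eq_right ?_
      have e1 : min 1 ((n : ℝ) * t) ≤ (n : ℝ) * t := min_le_right _ _
      have e3 : (n : ℝ) * t ≤ n * (δ / n) := by
        refine mul_le_mul_of_nonneg_left ?_ hn0.le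
        linarith
      rw [mul_div_cancel₀ _ hn0.ne'] at e3
      linarith
    · rw [max_eq_left h, hG₂]
      show _ = max (min 1 ((n : ℝ) * (max (t - 2 * ε) 0 + 2 * ε)) - δ) 0
      rw [max_eq_left h, sub_add_cancel]
  rw [hGa, ← hL, h2 A σ ι κ L G₂ _ hG₂c hδ' hG₂v hG₂0, ← hh]
  -- G₂ (h) f = G₂ (h)
  have hk : cfc G₂ h = cfc (fun t : ℝ => G₂ t / max t (δ / n - 2 * ε)) h * h := by
    have hkc : Continuous fun t : ℝ => G₂ t / max t (δ / n - 2 * ε) :=
      hG₂c.div (by fun_prop) fun t => (lt_of_lt_of_le hδ' (le_max_right _ _)).ne'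
    have e1 : cfc (fun t : ℝ => G₂ t / max t (δ / n - 2 * ε)) h * h =
        cfc (fun t : ℝ => G₂ t / max t (δ / n - 2 * ε)) h * cfc (fun t : ℝ => t) h := by
      rw [cfc_id' ℝ h]
    rw [e1, ← cfc_mul _ _ h hkc.continuousOn (by fun_prop)]
    refine cfc_congr fun t _ => ?_
    show G₂ t = G₂ t / max t (δ / n - 2 * ε) * t
    rcases le_total t (δ / n - 2 * ε) with h | h
    · rw [hG₂v t h]; simp
    · rw [max_eq_left h, div_mul_cancel₀]
      linarith
  have hGf : cfc G₂ h * f = cfc G₂ h := by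
    rw [hk, mul_assoc, hhf]
  have hGS : star (cfc G₂ h) = cfc G₂ h := by
    have : IsSelfAdjoint (cfc G₂ h) := cfc_predicate _ h
    exact this
  have hfG : f * cfc G₂ h = cfc G₂ h := by
    have := congrArg star hGf
    rw [star_mul, hGS, hfS] at this
    exact this
  have hcm : Commute f (1 - cfc G₂ h) := by
    show f * (1 - cfc G₂ h) = (1 - cfc G₂ h) * f
    rw [mul_sub, sub_mul, mul_one, one_mul, hfG, hGf]
  have hG1 : 0 ≤ 1 - cfc G₂ h := by
    rw [sub_nonneg]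
    exact cfc_le_one G₂ h fun t _ => hG₂1 t
  have hle : cfc G₂ h ≤ f := by
    have e1 : 0 ≤ f * (1 - cfc G₂ h) := hcm.mul_nonneg hf0 hG1
    rw [mul_sub, mul_one, hfG] at e1
    exact sub_nonneg.1 e1
  refine (σ.mono_of_comm (cfc_nonneg fun t _ => hG₂0 t) hle (hGf.trans hfG.symm)).trans ?_
  rw [hf]
  exact le_ciSup (f := fun n : ℕ => σ.τ κ (cfc (fun t : ℝ => min 1 ((n : ℝ) * t)) b))
    (h3 A σ κ b hb).1 m

theorem qMonoP (h1 : PedP.{u}) (h2 : QSwapP.{u}) (h3 : QBasicP.{u}) : QMonoP.{u} := by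
  intro A _ _ _ σ ι κ _ _ _ _ a b ha hb hab
  refine ciSup_le fun n => ?_
  have hdb : 0 ≤ σ.dim b := (h3 A σ κ b hb).2.1
  rcases Nat.eq_zero_or_pos n with hn | hn
  · subst hn
    have : cfc (fun t : ℝ => min 1 (((0 : ℕ) : ℝ) * t)) a = 0 := by
      rw [← cfc_zero ℝ a]
      refine cfc_congr fun t _ => ?_
      simp
    rw [this, QTrace.zero]
    exact hdb
  have hT : 0 ≤ σ.τ ι 1 := σ.nonneg ι 1 zero_le_one
  refine le_of_forall_pos_le_add fun e he => ?_
  obtain ⟨δ, hδ, hδe⟩ : ∃ δ : ℝ, 0 < δ ∧ δ * σ.τ ι 1 ≤ e := by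
    refine ⟨e / (σ.τ ι 1 + 1), by positivity, ?_⟩
    rw [div_mul_eq_mul_div, div_le_iff₀ (by positivity)]
    nlinarith
  have hmain := qm_main h1 h2 h3 σ ι κ a b ha hb hab n hn δ hδ
  have e1 : σ.τ ι (cfc (fun t : ℝ => min 1 ((n : ℝ) * t)) a) ≤
      σ.τ ι (cfc (fun t : ℝ => max (min 1 ((n : ℝ) * t) - δ) 0 + δ) a) := by
    refine σ.cfc_mono (by fun_prop) (by fun_prop) (fun t ht => ?_) fun t _ => ?_
    · exact le_min zero_le_one (mul_nonneg (Nat.cast_nonneg _) (spectrum_nonneg_of_nonneg ha ht))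
    · have := le_max_left (min 1 ((n : ℝ) * t) - δ) 0
      linarith
  have e2 : σ.τ ι (cfc (fun t : ℝ => max (min 1 ((n : ℝ) * t) - δ) 0 + δ) a) =
      σ.τ ι (cfc (fun t : ℝ => max (min 1 ((n : ℝ) * t) - δ) 0) a) +
      σ.τ ι (cfc (fun _ : ℝ => δ) a) :=
    σ.cfc_add (by fun_prop) (by fun_prop) (fun t _ => le_max_right _ _) fun t _ => hδ.le
  have e3 : cfc (fun _ : ℝ => δ) a = δ • (1 : CStarMatrix ι ι A) := by
    rw [cfc_const δ a, Algebra.algebraMap_eq_smul_one]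
  rw [e3, σ.smul ι δ 1 hδ.le zero_le_one] at e2
  linarith

end RC
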