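import Pool.Agent.Helper70.RC.Goals

/-!
# Project TW, packet HINE: inertia
-/

namespace Pool.Agent.Helper15.RC

open Pool.Agent.Helper70.RC Matrix

universe u

theorem exists_vec {k : Type u} [Field k] {n s : ℕ} (T : Finset (Fin n))
    (L : (Fin n → k) →ₗ[k] (Fin s → k)) (h : T.card + s < n) :
    ∃ y : Fin n → k, y ≠ 0 ∧ (∀ i ∈ T, y i = 0) ∧ L y = 0 := by
  classical
  by_contra hne
  push Not at hne
  let Φ : (Fin n → k) →ₗ[k] (T → k) × (Fin s → k) :=
    (LinearMap.funLeft k k (Subtype.val : T → Fin n)).prod L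
  have hinj : Function.Injective Φ := by
    rw [← LinearMap.ker_eq_bot, LinearMap.ker_eq_bot']
    intro y hy
    by_contra hy0
    have h1 : LinearMap.funLeft k k (Subtype.val : T → Fin n) y = 0 := congrArg Prod.fst hy
    have h2 : L y = 0 := congrArg Prod.snd hy
    refine hne y hy0 (fun i hi => ?_) h2
    exact congrFun h1 ⟨i, hi⟩
  have h3 := LinearMap.finrank_le_finrank_of_injective hinj
  rw [Module.finrank_prod, Module.finrank_fintype_fun_eq_card, Module.finrank_fintype_fun_eq_card,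
    Module.finrank_fintype_fun_eq_card, Fintype.card_fin, Fintype.card_fin,
    Fintype.card_coe] at h3
  omega

theorem quad {k : Type u} [Field k] {n : ℕ} {H P : Matrix (Fin n) (Fin n) k} {d : Fin n → k}
    (hP : P.transpose * H * P = Matrix.diagonal d) (y : Fin n → k) :
    ∑ i, ∑ j, (P *ᵥ y) i * H i j * (P *ᵥ y) j = ∑ i, d i * y i ^ 2 := by
  have h1 : ∀ u : Fin n → k, ∑ i, ∑ j, u i * H i j * u j = u ⬝ᵥ (H *ᵥ u) := by
    intro u
    simp only [dotProduct, mulVec, Finset.mul_sum, mul_assoc]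
  rw [h1]
  have h2 : (P *ᵥ y) ⬝ᵥ (H *ᵥ (P *ᵥ y)) = y ⬝ᵥ ((P.transpose * H * P) *ᵥ y) := by
    rw [← Matrix.mulVec_mulVec, ← Matrix.mulVec_mulVec, Matrix.dotProduct_mulVec y,
      Matrix.vecMul_transpose]
  rw [h2, hP]
  simp only [dotProduct, Matrix.mulVec_diagonal]
  exact Finset.sum_congr rfl fun i _ => by ring

theorem hine : HINE.{u} := by
  classical
  intro k _ _ n r s H P d A B C hdet hP hn hABC hq
  obtain ⟨_, _⟩ := exists_order k
  have hpos : ∀ x : k, (x ≠ 0 ∧ IsSquare x) ↔ 0 < x := by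
    intro x
    rw [← IsRealClosed.nonneg_iff_isSquare]
    constructor
    · rintro ⟨h1, h2⟩
      exact lt_of_le_of_ne h2 (Ne.symm h1)
    · intro h
      exact ⟨h.ne', h.le⟩
  set S : Finset (Fin n) := Finset.univ.filter fun i => d i ≠ 0 ∧ IsSquare (d i) with hS
  have hN : npos d = S.card := by
    unfold npos
    rw [hS]
    congr
  have hmem : ∀ i, i ∈ S ↔ 0 < d i := by
    intro i
    rw [hS, Finset.mem_filter]
    simp only [Finset.mem_univ, true_and]
    exact hpos _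
  have hcard : S.card + Sᶜ.card = n := by
    rw [Finset.card_add_card_compl, Fintype.card_fin]
  have hPinj : ∀ y : Fin n → k, P *ᵥ y = 0 → y = 0 := by
    intro y hy
    have hu : IsUnit P.det := isUnit_iff_ne_zero.2 hdet
    have h1 : P⁻¹ *ᵥ (P *ᵥ y) = y := by
      rw [Matrix.mulVec_mulVec, Matrix.nonsing_inv_mul P hu, Matrix.one_mulVec]
    rw [← h1, hy, Matrix.mulVec_zero]
  rw [hN]
  constructor
  · intro hlt
    by_contra hr
    have hr0 : r = 0 := by omega
    subst hr0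
    obtain ⟨y, hy0, hyT, hyL⟩ := exists_vec Sᶜ ((B - C) ∘ₗ P.mulVecLin) (by omega)
    have h1 : B (P *ᵥ y) = C (P *ᵥ y) := by
      have : B (P *ᵥ y) - C (P *ᵥ y) = 0 := hyL
      exact sub_eq_zero.1 this
    have h2 := hq (P *ᵥ y)
    rw [quad hP, h1] at h2
    simp only [Finset.univ_eq_empty, Finset.sum_empty, sub_self, Finset.sum_const_zero, mul_zero,
      add_zero] at h2
    have h3 : ∀ i ∈ Finset.univ, 0 ≤ d i * y i ^ 2 := by
      intro i _
      by_cases hi : i ∈ S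
      · exact mul_nonneg ((hmem i).1 hi).le (sq_nonneg _)
      · rw [hyT i (Finset.mem_compl.2 hi)]
        simp
    rw [Finset.sum_eq_zero_iff_of_nonneg h3] at h2
    apply hy0
    funext i
    by_cases hi : i ∈ S
    · have h4 := h2 i (Finset.mem_univ i)
      have h5 : d i ≠ 0 := ((hmem i).1 hi).ne'
      have h6 : y i ^ 2 = 0 := (mul_eq_zero.1 h4).resolve_left h5
      exact pow_eq_zero_iff (two_ne_zero) |>.1 h6
    · exact hyT i (Finset.mem_compl.2 hi)
  · intro hr
    by_contra hlt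
    obtain ⟨y, hy0, hyT, hyL⟩ := exists_vec S (C ∘ₗ P.mulVecLin) (by omega)
    have h1 : C (P *ᵥ y) = 0 := hyL
    have h2 := hq (P *ᵥ y)
    rw [quad hP, h1] at h2
    have h3 : ∑ i, d i * y i ^ 2 ≤ 0 := by
      refine Finset.sum_nonpos fun i _ => ?_
      by_cases hi : i ∈ S
      · rw [hyT i hi]
        simp
      · have h4 : d i ≤ 0 := by
          rw [hmem] at hi
          exact not_lt.1 hi
        exact mul_nonpos_of_nonpos_of_nonneg h4 (sq_nonneg _)
    have h5 : 0 ≤ ∑ i, A (P *ᵥ y) i ^ 2 := Finset.sum_nonneg fun i _ => sq_nonneg _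
    have h6 : 0 ≤ ∑ i, B (P *ᵥ y) i ^ 2 := Finset.sum_nonneg fun i _ => sq_nonneg _
    have h7 : ∑ i, (B (P *ᵥ y) i ^ 2 - (0 : Fin s → k) i ^ 2) = ∑ i, B (P *ᵥ y) i ^ 2 := by
      refine Finset.sum_congr rfl fun i _ => ?_
      simp
    rw [h7] at h2
    have h8 : ∑ i, A (P *ᵥ y) i ^ 2 = 0 := by linarith
    have h9 : ∑ i, B (P *ᵥ y) i ^ 2 = 0 := by linarith
    rw [Finset.sum_eq_zero_iff_of_nonneg fun i _ => sq_nonneg _] at h8 h9
    have hA0 : A (P *ᵥ y) = 0 := funext fun i =>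
      pow_eq_zero_iff (two_ne_zero) |>.1 (h8 i (Finset.mem_univ i))
    have hB0 : B (P *ᵥ y) = 0 := funext fun i =>
      pow_eq_zero_iff (two_ne_zero) |>.1 (h9 i (Finset.mem_univ i))
    exact hy0 (hPinj y (hABC _ hA0 hB0 h1))

end Pool.Agent.Helper15.RC
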